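import Mathlib

/-!
# Elementary lemmas for the upper bound sieve for triples (piece R2 of project RP of helper285)
-/

set_option autoImplicit false

namespace Run7.h920.R

open Finset

lemma one_le_prodR {κ : Type*} (s : Finset κ) (f : κ → ℝ) (h : ∀ i ∈ s, 1 ≤ f i) : 1 ≤ ∏ i ∈ s, f i := by
  calc (1 : ℝ) = ∏ _i ∈ s, (1 : ℝ) := by rw [prod_const_one]
    _ ≤ _ := prod_le_prod (fun _ _ => zero_le_one) h

lemma prod_mono_set {S T : Finset ℕ} (h : S ⊆ T) {f : ℕ → ℝ} (hf : ∀ x ∈ T, 1 ≤ f x) :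
    ∏ x ∈ S, f x ≤ ∏ x ∈ T, f x := by
  classical
  rw [← Finset.prod_sdiff h]
  have h1 : 1 ≤ ∏ x ∈ T \ S, f x := one_le_prodR _ _ (fun x hx => hf x (Finset.mem_sdiff.1 hx).1)
  have h2 : 0 ≤ ∏ x ∈ S, f x := Finset.prod_nonneg (fun x hx => zero_le_one.trans (hf x (h hx)))
  nlinarith

lemma prod_union_le {S T : Finset ℕ} {f : ℕ → ℝ} (hS : ∀ x ∈ S, 1 ≤ f x) (hT : ∀ x ∈ T, 1 ≤ f x) :
    ∏ x ∈ S ∪ T, f x ≤ (∏ x ∈ S, f x) * ∏ x ∈ T, f x := by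
  classical
  have h1 : ∏ x ∈ S ∪ T, f x = (∏ x ∈ S, f x) * ∏ x ∈ T \ S, f x := by
    rw [← Finset.prod_union disjoint_sdiff]
    congr 1
    ext x
    simp
  rw [h1]
  apply mul_le_mul_of_nonneg_left _ (Finset.prod_nonneg (fun x hx => zero_le_one.trans (hS x hx)))
  exact prod_mono_set sdiff_subset hT

/-- the factor -/
noncomputable def ff (p : ℕ) : ℝ := ((1 - 1 / (p : ℝ)) ^ 2)⁻¹

lemma half_le (p : ℕ) (hp : 2 ≤ p) : (1 : ℝ) / 2 ≤ 1 - 1 / (p : ℝ) ∧ 1 - 1 / (p : ℝ) < 1 := by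
  have h2 : (2 : ℝ) ≤ p := by exact_mod_cast hp
  have h3 : 1 / (p : ℝ) ≤ 1 / 2 := one_div_le_one_div_of_le (by norm_num) h2
  have h4 : 0 < 1 / (p : ℝ) := by positivity
  constructor <;> linarith

lemma one_le_ff (p : ℕ) (hp : 2 ≤ p) : 1 ≤ ff p := by
  obtain ⟨h1, h2⟩ := half_le p hp
  unfold ff
  rw [one_le_inv₀ (by positivity)]
  apply pow_le_one₀ (by linarith) h2.le

lemma ff_exp (p : ℕ) (hp : 2 ≤ p) : ff p ≤ Real.exp (4 / p) := by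
  obtain ⟨h1, h2⟩ := half_le p hp
  have h3 : (0 : ℝ) < p := by exact_mod_cast (by omega : 0 < p)
  have h4 : (1 - 1 / (p : ℝ))⁻¹ ≤ Real.exp (2 / p) := by
    have h5 : (1 - 1 / (p : ℝ))⁻¹ ≤ 1 + 2 / p := by
      rw [inv_le_comm₀ (by linarith) (by positivity)]
      rw [inv_le_iff_one_le_mul₀ (by positivity)]
      have h6 : 1 / (p : ℝ) ≤ 1 / 2 := by linarith
      have h7 : 0 < 1 / (p : ℝ) := by positivity
      have h8 : 2 / (p : ℝ) = 2 * (1 / p) := by ring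
      rw [h8]
      nlinarith
    refine h5.trans ?_
    have := Real.add_one_le_exp (2 / (p : ℝ))
    linarith
  unfold ff
  rw [← inv_pow]
  calc ((1 - 1 / (p : ℝ))⁻¹) ^ 2 ≤ (Real.exp (2 / p)) ^ 2 := by
        apply pow_le_pow_left₀ _ h4
        rw [inv_nonneg]; linarith
    _ = _ := by rw [← Real.exp_nat_mul]; congr 1; push_cast; ring

/-- the local estimate -/
lemma local_le (p : ℕ) (hp : p.Prime) (c b₁ b₂ b₃ : ℤ) (ω : ℕ)
    (hω : ω = #((range p).filter fun a : ℕ => (p : ℤ) ∣ (a : ℤ) - c + b₁ ∨ (p : ℤ) ∣ (a : ℤ) - c + b₂ ∨ (p : ℤ) ∣ (a : ℤ) - c + b₃)) :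
    1 ≤ ω ∧ (¬ (p : ℤ) ∣ b₂ - b₁ → ¬ (p : ℤ) ∣ b₃ - b₁ → ¬ (p : ℤ) ∣ b₃ - b₂ → 3 ≤ ω) := by
  have hp' : (0 : ℤ) < p := by exact_mod_cast hp.pos
  have key : ∀ b : ℤ, ∃ a : ℕ, a < p ∧ (p : ℤ) ∣ (a : ℤ) - c + b := by
    intro b
    have h1 := Int.emod_nonneg (c - b) hp'.ne'
    have h2 := Int.emod_lt_of_pos (c - b) hp'
    refine ⟨((c - b) % (p : ℤ)).toNat, by omega, ?_⟩
    rw [Int.toNat_of_nonneg h1]
    have h4 := Int.emod_add_mul_ediv (c - b) (p : ℤ)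
    refine ⟨-((c - b) / (p : ℤ)), ?_⟩
    linarith
  obtain ⟨a1, h11, h12⟩ := key b₁
  obtain ⟨a2, h21, h22⟩ := key b₂
  obtain ⟨a3, h31, h32⟩ := key b₃
  constructor
  · rw [hω, Nat.one_le_iff_ne_zero, Finset.card_ne_zero]
    exact ⟨a1, mem_filter.2 ⟨mem_range.2 h11, Or.inl h12⟩⟩
  · intro d1 d2 d3
    have n12 : a1 ≠ a2 := by
      rintro rfl
      apply d1
      have := dvd_sub h22 h12
      have e : (a1 : ℤ) - c + b₂ - ((a1 : ℤ) - c + b₁) = b₂ - b₁ := by ring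
      rwa [e] at this
    have n13 : a1 ≠ a3 := by
      rintro rfl
      apply d2
      have := dvd_sub h32 h12
      have e : (a1 : ℤ) - c + b₃ - ((a1 : ℤ) - c + b₁) = b₃ - b₁ := by ring
      rwa [e] at this
    have n23 : a2 ≠ a3 := by
      rintro rfl
      apply d3
      have := dvd_sub h32 h22
      have e : (a2 : ℤ) - c + b₃ - ((a2 : ℤ) - c + b₂) = b₃ - b₂ := by ring
      rwa [e] at this
    have h3 : #({a1, a2, a3} : Finset ℕ) = 3 := by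
      rw [Finset.card_eq_three]
      exact ⟨a1, a2, a3, n12, n13, n23, rfl⟩
    rw [hω, ← h3]
    apply Finset.card_le_card
    intro x hx
    simp only [mem_insert, mem_singleton] at hx
    rcases hx with rfl | rfl | rfl
    · exact mem_filter.2 ⟨mem_range.2 h11, Or.inl h12⟩
    · exact mem_filter.2 ⟨mem_range.2 h21, Or.inr (Or.inl h22)⟩
    · exact mem_filter.2 ⟨mem_range.2 h31, Or.inr (Or.inr h32)⟩

/-- the local estimate for the density -/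
lemma local_dens (p : ℕ) (hp : p.Prime) (c b₁ b₂ b₃ : ℤ) (ω : ℕ)
    (hω : ω = #((range p).filter fun a : ℕ => (p : ℤ) ∣ (a : ℤ) - c + b₁ ∨ (p : ℤ) ∣ (a : ℤ) - c + b₂ ∨ (p : ℤ) ∣ (a : ℤ) - c + b₃)) :
    1 - (ω : ℝ) / p ≤ (1 - 1 / (p : ℝ)) ^ 3 * (if (p : ℤ) ∣ (b₂ - b₁) * (b₃ - b₁) * (b₃ - b₂) then ff p else 1) := by
  obtain ⟨h1, h2⟩ := local_le p hp c b₁ b₂ b₃ ω hω
  obtain ⟨g1, g2⟩ := half_le p hp.two_le
  have hp0 : (0 : ℝ) < p := by exact_mod_cast hp.pos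
  split_ifs with hd
  · have e : (1 - 1 / (p : ℝ)) ^ 3 * ff p = 1 - 1 / (p : ℝ) := by
      unfold ff
      have : (1 - 1 / (p : ℝ)) ≠ 0 := by linarith
      rw [pow_succ', mul_assoc, mul_inv_cancel₀ (pow_ne_zero 2 this), mul_one]
    rw [e]
    have h3 : (1 : ℝ) ≤ ω := by exact_mod_cast h1
    have h4 : 1 / (p : ℝ) ≤ (ω : ℝ) / p := div_le_div_of_nonneg_right h3 hp0.le
    linarith
  · have hpi : Prime (p : ℤ) := Nat.prime_iff_prime_int.1 hp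
    have d1 : ¬ (p : ℤ) ∣ b₂ - b₁ := fun h => hd (Dvd.dvd.mul_right (Dvd.dvd.mul_right h _) _)
    have d2 : ¬ (p : ℤ) ∣ b₃ - b₁ := fun h => hd (Dvd.dvd.mul_right (Dvd.dvd.mul_left h _) _)
    have d3 : ¬ (p : ℤ) ∣ b₃ - b₂ := fun h => hd (Dvd.dvd.mul_left h _)
    have h3 : (3 : ℝ) ≤ ω := by exact_mod_cast h2 d1 d2 d3
    have h4 : 3 / (p : ℝ) ≤ (ω : ℝ) / p := div_le_div_of_nonneg_right h3 hp0.le
    have h5 : 3 / (p : ℝ) = 3 * (1 / p) := by ring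
    have h6 : 0 < 1 / (p : ℝ) := by positivity
    have h7 : 1 / (p : ℝ) ≤ 1 / 2 := by linarith
    rw [mul_one]
    nlinarith [mul_pos h6 h6]

/-- the large primes dividing `Δ` -/
lemma large_le (Δ : ℤ) (hΔ : Δ ≠ 0) (S : Finset ℕ) (hS : ∀ p ∈ S, p.Prime ∧ (p : ℤ) ∣ Δ) (t : ℝ) (ht : 0 < t) (htS : ∀ p ∈ S, t ≤ p) :
    ∏ p ∈ S, ff p ≤ Real.exp (4 / t * (Real.log Δ.natAbs / Real.log 2)) := by
  have h1 : ∏ p ∈ S, ff p ≤ ∏ p ∈ S, Real.exp (4 / t) := by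
    apply prod_le_prod
    · intro p hp
      exact zero_le_one.trans (one_le_ff p (hS p hp).1.two_le)
    · intro p hp
      refine (ff_exp p (hS p hp).1.two_le).trans ?_
      apply Real.exp_le_exp.2
      exact div_le_div_of_nonneg_left (by norm_num) ht (htS p hp)
  rw [prod_const, ← Real.exp_nat_mul] at h1
  refine h1.trans (Real.exp_le_exp.2 ?_)
  have h2 : (2 : ℕ) ^ #S ≤ Δ.natAbs := by
    have h3 : ∏ p ∈ S, p ∣ Δ.natAbs := by
      apply Finset.prod_primes_dvd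
      · intro p hp; exact (hS p hp).1.prime
      · intro p hp; exact Int.natCast_dvd.1 (hS p hp).2
    calc 2 ^ #S = ∏ _p ∈ S, 2 := by rw [prod_const]
      _ ≤ ∏ p ∈ S, p := prod_le_prod' (fun p hp => (hS p hp).1.two_le)
      _ ≤ _ := Nat.le_of_dvd (Int.natAbs_pos.2 hΔ) h3
  have h4 : (#S : ℝ) * Real.log 2 ≤ Real.log Δ.natAbs := by
    rw [← Real.log_pow]
    apply Real.log_le_log (by positivity)
    exact_mod_cast h2
  have h5 : (0 : ℝ) < Real.log 2 := Real.log_pos (by norm_num)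
  have h6 : (#S : ℝ) ≤ Real.log Δ.natAbs / Real.log 2 := by rwa [le_div_iff₀ h5]
  rw [mul_comm]
  exact mul_le_mul_of_nonneg_left h6 (by positivity)

end Run7.h920.R
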