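import Pool.Agent.Run7.h285.R.Stm
import Pool.Agent.TH892.SW.S2
import Pool.Agent.H646.Sv3
import Pool.Agent.Run7.h920.R.R2a

/-!
# Piece R2 of project RP (helper285): the upper bound sieve for triples
-/

set_option autoImplicit false

namespace Run7.h920.R

open Finset
open Run7.h285.R

lemma root (m n : ℕ) (hm : 2 ≤ m) : ∃ Y₀ : ℕ, ∀ Y : ℕ, Y₀ ≤ Y → ∃ y : ℕ, n ≤ y ∧ 2 ≤ y ∧ y ^ m ≤ Y ∧ Real.log Y ≤ 2 * m * Real.log y := by
  refine ⟨(n + 2) ^ m, fun Y hY => ?_⟩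
  have h0 : n + 2 ≤ (n + 2) ^ m := Nat.le_self_pow (by omega) _
  obtain ⟨y, hy⟩ : ∃ y, y = Nat.findGreatest (fun y => y ^ m ≤ Y) Y := ⟨_, rfl⟩
  have h1 : n + 2 ≤ y := by
    rw [hy]
    exact Nat.le_findGreatest (by omega) hY
  have h2 : y ^ m ≤ Y := by
    rw [hy]
    exact Nat.findGreatest_spec (P := fun y => y ^ m ≤ Y) (m := n + 2) (by omega) hY
  have h3 : Y < (y + 1) ^ m := by
    by_contra hcon
    push Not at hcon
    have h4 : y + 1 ≤ Y := by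
      calc y + 1 ≤ (y + 1) ^ m := Nat.le_self_pow (by omega) _
        _ ≤ Y := hcon
    have h5 : y + 1 ≤ Nat.findGreatest (fun y => y ^ m ≤ Y) Y := Nat.le_findGreatest h4 hcon
    omega
  refine ⟨y, by omega, by omega, h2, ?_⟩
  have hy0 : (0 : ℝ) < y := by exact_mod_cast (by omega : 0 < y)
  have hY0 : (0 : ℝ) < Y := by
    have : 0 < y ^ m := Nat.pow_pos (by omega)
    exact_mod_cast (by omega : 0 < Y)
  have h6 : y + 1 ≤ y ^ 2 := by
    have : 2 * y ≤ y ^ 2 := by rw [sq]; exact Nat.mul_le_mul_right _ (by omega)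
    omega
  have h7 : Y ≤ (y ^ 2) ^ m := h3.le.trans (Nat.pow_le_pow_left h6 m)
  calc Real.log Y ≤ Real.log (((y ^ 2) ^ m : ℕ) : ℝ) := Real.log_le_log hY0 (by exact_mod_cast h7)
    _ = 2 * m * Real.log y := by
        push_cast
        rw [Real.log_pow, Real.log_pow]
        push_cast
        ring

lemma ev_log (k : ℕ) (c : ℝ) : ∃ x0 : ℕ, ∀ x : ℕ, x0 ≤ x → c * Real.log x ^ k ≤ √x := by
  have h := (isLittleO_log_rpow_rpow_atTop (k : ℝ) (show (0 : ℝ) < 1 / 2 by norm_num)).bound (show 0 < 1 / (|c| + 1) by positivity)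
  have h2 := (tendsto_natCast_atTop_atTop (R := ℝ)).eventually h
  obtain ⟨x0, hx0⟩ := Filter.eventually_atTop.1 h2
  refine ⟨max x0 1, fun x hx => ?_⟩
  have h3 := hx0 x (le_trans (le_max_left _ _) hx)
  have hx1 : (1 : ℝ) ≤ x := by exact_mod_cast (le_trans (le_max_right _ _) hx)
  have hl : 0 ≤ Real.log x := Real.log_nonneg hx1
  rw [Real.norm_of_nonneg (by positivity), Real.norm_of_nonneg (by positivity), Real.rpow_natCast, ← Real.sqrt_eq_rpow] at h3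
  have h4 : c ≤ |c| + 1 := by have := le_abs_self c; linarith
  calc c * Real.log x ^ k ≤ (|c| + 1) * Real.log x ^ k := mul_le_mul_of_nonneg_right h4 (by positivity)
    _ ≤ (|c| + 1) * (1 / (|c| + 1) * √x) := mul_le_mul_of_nonneg_left h3 (by positivity)
    _ = _ := by field_simp

lemma ev_L (c : ℝ) : ∃ x0 : ℕ, ∀ x : ℕ, x0 ≤ x → c ≤ Real.log x := by
  have h := (Real.tendsto_log_atTop.comp (tendsto_natCast_atTop_atTop (R := ℝ))).eventually_ge_atTop c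
  obtain ⟨x0, hx0⟩ := Filter.eventually_atTop.1 h
  exact ⟨x0, fun x hx => hx0 x hx⟩

/-- the forbidden classes -/
def Rr (c b₁ b₂ b₃ : ℤ) (p a : ℕ) : Prop := (p : ℤ) ∣ (a : ℤ) - c + b₁ ∨ (p : ℤ) ∣ (a : ℤ) - c + b₂ ∨ (p : ℤ) ∣ (a : ℤ) - c + b₃

lemma Rr_mod (c b₁ b₂ b₃ : ℤ) (p m : ℕ) : Rr c b₁ b₂ b₃ p (m % p) ↔ Rr c b₁ b₂ b₃ p m := by
  unfold Rr
  have h1 : ∀ h : ℤ, (p : ℤ) ∣ ((m % p : ℕ) : ℤ) - c + h ↔ (p : ℤ) ∣ (m : ℤ) - c + h := by
    intro h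
    have h2 : (m : ℤ) - c + h = (((m % p : ℕ) : ℤ) - c + h) + p * ((m / p : ℕ) : ℤ) := by
      have h3 : ((m % p + p * (m / p) : ℕ) : ℤ) = m := by rw [Nat.mod_add_div]
      push_cast at h3 ⊢
      linarith
    rw [h2]
    exact (dvd_add_left (dvd_mul_right _ _)).symm
  simp only [h1]

/-- a class is empty of roots modulo `p` at most three times -/
lemma Rr_card (c b₁ b₂ b₃ : ℤ) (p : ℕ) (hp : 0 < p) [DecidablePred fun a => Rr c b₁ b₂ b₃ p a] :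
    #((range p).filter fun a => Rr c b₁ b₂ b₃ p a) ≤ 3 := by
  classical
  have hp' : (0 : ℤ) < p := by exact_mod_cast hp
  have hsub : ((range p).filter fun a => Rr c b₁ b₂ b₃ p a) ⊆
      {((c - b₁) % (p : ℤ)).toNat, ((c - b₂) % (p : ℤ)).toNat, ((c - b₃) % (p : ℤ)).toNat} := by
    intro a ha
    rw [mem_filter, mem_range] at ha
    have key : ∀ b : ℤ, (p : ℤ) ∣ (a : ℤ) - c + b → a = ((c - b) % (p : ℤ)).toNat := by
      intro b hb
      have h1 := Int.emod_nonneg (c - b) hp'.ne'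
      have h2 : ((a : ℤ)) % p = (c - b) % p := by
        apply Int.ModEq.symm
        rw [Int.modEq_iff_dvd]
        have e : (a : ℤ) - (c - b) = (a : ℤ) - c + b := by ring
        rw [e]; exact hb
      have h3 : (a : ℤ) % p = a := Int.emod_eq_of_lt (by omega) (by exact_mod_cast ha.1)
      omega
    simp only [mem_insert, mem_singleton]
    rcases ha.2 with h | h | h
    · exact Or.inl (key _ h)
    · exact Or.inr (Or.inl (key _ h))
    · exact Or.inr (Or.inr (key _ h))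
  exact (card_le_card hsub).trans card_le_three

/-- the product over the primes up to `z` -/
lemma Vz_le (z : ℕ) (hz : 2 ≤ z) : ∏ p ∈ (z + 1).primesBelow, (1 - 1 / (p : ℝ)) ≤ 1 / Real.log z := by
  have h := Pool.Agent.H646.Sv3M.log_le_euler z
  have h1 : (0 : ℝ) < Real.log z := Real.log_pos (by exact_mod_cast (by omega : 1 < z))
  rw [prod_inv_distrib] at h
  have h2 : ∏ p ∈ (z + 1).primesBelow, (1 - 1 / (p : ℝ)) = ∏ p ∈ (z + 1).primesBelow, (1 - (p : ℝ)⁻¹) := by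
    simp only [one_div]
  rw [h2]
  have h3 : 0 < ∏ p ∈ (z + 1).primesBelow, (1 - (p : ℝ)⁻¹) := by
    apply prod_pos
    intro p hp
    have := (half_le p (Nat.mem_primesBelow.1 hp).2.two_le).1
    rw [one_div (p : ℝ)] at this
    linarith
  rw [le_div_iff₀ h1]
  calc (∏ p ∈ (z + 1).primesBelow, (1 - (p : ℝ)⁻¹)) * Real.log z ≤
      (∏ p ∈ (z + 1).primesBelow, (1 - (p : ℝ)⁻¹)) * (∏ p ∈ (z + 1).primesBelow, (1 - (p : ℝ)⁻¹))⁻¹ := mul_le_mul_of_nonneg_left h h3.le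
    _ = 1 := mul_inv_cancel₀ h3.ne'

lemma hh_eq (y : ℕ) (δ : ℤ) [DecidablePred fun p : ℕ => p.Prime ∧ (p : ℤ) ∣ δ] :
    hh y δ = ∏ p ∈ (range (y + 1)).filter (fun p : ℕ => p.Prime ∧ (p : ℤ) ∣ δ), ff p := by
  unfold hh ff
  apply prod_congr _ (fun _ _ => rfl)
  ext p
  simp only [mem_filter]

lemma one_le_hh (y : ℕ) (δ : ℤ) : 1 ≤ hh y δ := by
  classical
  rw [hh_eq]
  apply one_le_prodR
  intro p hp
  exact one_le_ff p (mem_filter.1 hp).2.1.two_le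

open Classical in
/-- the product over the primes dividing one of the differences -/
lemma div_le (z y : ℕ) (δ₁ δ₂ δ₃ : ℤ) (h1 : δ₁ ≠ 0) (h2 : δ₂ ≠ 0) (h3 : δ₃ ≠ 0) (t : ℝ) (ht : 0 < t) (hty : ∀ p : ℕ, y < p → t ≤ p) :
    ∏ p ∈ (z + 1).primesBelow.filter (fun p : ℕ => (p : ℤ) ∣ δ₁ * δ₂ * δ₃), ff p ≤
      hh y δ₁ * hh y δ₂ * hh y δ₃ * Real.exp (4 / t * (Real.log (δ₁ * δ₂ * δ₃).natAbs / Real.log 2)) := by
  obtain ⟨T, hT⟩ : ∃ T, T = (z + 1).primesBelow.filter (fun p : ℕ => (p : ℤ) ∣ δ₁ * δ₂ * δ₃ ∧ y < p) := ⟨_, rfl⟩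
  have hTl := large_le (δ₁ * δ₂ * δ₃) (mul_ne_zero (mul_ne_zero h1 h2) h3) T (fun p hp => by
    rw [hT, mem_filter, Nat.mem_primesBelow] at hp
    exact ⟨hp.1.2, hp.2.1⟩) t ht (fun p hp => by
    rw [hT, mem_filter] at hp
    exact hty p hp.2.2)
  obtain ⟨S, hS⟩ : ∃ S : ℤ → Finset ℕ, S = fun δ => (range (y + 1)).filter (fun p : ℕ => p.Prime ∧ (p : ℤ) ∣ δ) := ⟨_, rfl⟩
  have hSf : ∀ δ, ∀ p ∈ S δ, 1 ≤ ff p := by
    intro δ p hp
    rw [hS, mem_filter] at hp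
    exact one_le_ff p hp.2.1.two_le
  have hTf : ∀ p ∈ T, 1 ≤ ff p := by
    intro p hp
    rw [hT, mem_filter, Nat.mem_primesBelow] at hp
    exact one_le_ff p hp.1.2.two_le
  have hSh : ∀ δ, ∏ p ∈ S δ, ff p = hh y δ := by
    intro δ
    rw [hS, hh_eq]
  have hsub : (z + 1).primesBelow.filter (fun p : ℕ => (p : ℤ) ∣ δ₁ * δ₂ * δ₃) ⊆ ((S δ₁ ∪ S δ₂) ∪ S δ₃) ∪ T := by
    intro p hp
    rw [mem_filter, Nat.mem_primesBelow] at hp
    have hpi : Prime (p : ℤ) := Nat.prime_iff_prime_int.1 hp.1.2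
    by_cases hpy : y < p
    · apply mem_union_right
      rw [hT, mem_filter, Nat.mem_primesBelow]
      exact ⟨hp.1, hp.2, hpy⟩
    · apply mem_union_left
      have hr : p ∈ range (y + 1) := mem_range.2 (by omega)
      rcases hpi.dvd_or_dvd hp.2 with h | h
      · rcases hpi.dvd_or_dvd h with h' | h'
        · apply mem_union_left
          apply mem_union_left
          rw [hS, mem_filter]
          exact ⟨hr, hp.1.2, h'⟩
        · apply mem_union_left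
          apply mem_union_right
          rw [hS, mem_filter]
          exact ⟨hr, hp.1.2, h'⟩
      · apply mem_union_right
        rw [hS, mem_filter]
        exact ⟨hr, hp.1.2, h⟩
  have hf2 : ∀ p ∈ S δ₁ ∪ S δ₂, 1 ≤ ff p := by
    intro p hp
    rcases mem_union.1 hp with h | h
    · exact hSf _ p h
    · exact hSf _ p h
  have hf3 : ∀ p ∈ (S δ₁ ∪ S δ₂) ∪ S δ₃, 1 ≤ ff p := by
    intro p hp
    rcases mem_union.1 hp with h | h
    · exact hf2 p h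
    · exact hSf _ p h
  have hf4 : ∀ p ∈ ((S δ₁ ∪ S δ₂) ∪ S δ₃) ∪ T, 1 ≤ ff p := by
    intro p hp
    rcases mem_union.1 hp with h | h
    · exact hf3 p h
    · exact hTf p h
  have e1 := prod_mono_set hsub hf4
  have e2 := prod_union_le hf3 hTf
  have e3 := prod_union_le hf2 (hSf δ₃)
  have e4 := prod_union_le (hSf δ₁) (hSf δ₂)
  rw [hSh] at e3
  rw [hSh, hSh] at e4
  have p3 : 0 ≤ hh y δ₃ := zero_le_one.trans (one_le_hh y δ₃)
  have p1 : 0 ≤ hh y δ₁ := zero_le_one.trans (one_le_hh y δ₁)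
  have p2 : 0 ≤ hh y δ₂ := zero_le_one.trans (one_le_hh y δ₂)
  have pT : 0 ≤ ∏ p ∈ T, ff p := prod_nonneg fun p hp => zero_le_one.trans (hTf p hp)
  calc _ ≤ _ := e1
    _ ≤ _ := e2
    _ ≤ (hh y δ₁ * hh y δ₂ * hh y δ₃) * ∏ p ∈ T, ff p := by
        apply mul_le_mul_of_nonneg_right _ pT
        exact e3.trans (mul_le_mul_of_nonneg_right e4 p3)
    _ ≤ _ := mul_le_mul_of_nonneg_left hTl (by positivity)

open Classical in
/-- the count -/
lemma count_le (X z : ℕ) (b₁ b₂ b₃ : ℤ) :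
    t3 X b₁ b₂ b₃ ≤ #((Icc 1 (2 * X + 1)).filter (fun n => ∀ p ∈ (z + 1).primesBelow, ¬ Rr (X + 1) b₁ b₂ b₃ p (n % p))) + 3 * (2 * z + 1) := by
  unfold t3
  obtain ⟨A, hA⟩ : ∃ A : Finset ℤ, A = (Icc (-(X : ℤ)) X).filter fun c => ∀ p ∈ (z + 1).primesBelow,
    ¬ ((p : ℤ) ∣ b₁ + c ∨ (p : ℤ) ∣ b₂ + c ∨ (p : ℤ) ∣ b₃ + c) := ⟨_, rfl⟩
  obtain ⟨B, hB⟩ : ∃ B : ℤ → Finset ℤ, B = fun b : ℤ => Icc (-b - (z : ℤ)) (-b + (z : ℤ)) := ⟨_, rfl⟩
  have hBc : ∀ b, #(B b) = 2 * z + 1 := by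
    intro b
    rw [hB, Int.card_Icc]
    omega
  have hsub : (Icc (-(X : ℤ)) X).filter (fun c => (b₁ + c).natAbs.Prime ∧ (b₂ + c).natAbs.Prime ∧ (b₃ + c).natAbs.Prime) ⊆
      ((A ∪ B b₁) ∪ B b₂) ∪ B b₃ := by
    intro c hc
    rw [mem_filter] at hc
    obtain ⟨hc0, q1, q2, q3⟩ := hc
    have key : ∀ b : ℤ, (b + c).natAbs.Prime → ∀ p ∈ (z + 1).primesBelow, (p : ℤ) ∣ b + c → c ∈ B b := by
      intro b hb p hp hd
      rw [Nat.mem_primesBelow] at hp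
      have h1 : p ∣ (b + c).natAbs := Int.natCast_dvd.1 hd
      have h2 : p = (b + c).natAbs := (Nat.prime_dvd_prime_iff_eq hp.2 hb).1 h1
      rw [hB, mem_Icc]
      constructor <;> omega
    by_cases hcA : c ∈ A
    · exact mem_union_left _ (mem_union_left _ (mem_union_left _ hcA))
    · rw [hA, mem_filter, not_and] at hcA
      have h1 := hcA hc0
      push Not at h1
      obtain ⟨p, hp, h2⟩ := h1
      rcases h2 with h2 | h2 | h2
      · exact mem_union_left _ (mem_union_left _ (mem_union_right _ (key b₁ q1 p hp h2)))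
      · exact mem_union_left _ (mem_union_right _ (key b₂ q2 p hp h2))
      · exact mem_union_right _ (key b₃ q3 p hp h2)
  have h1 := card_le_card hsub
  have h2 : #(((A ∪ B b₁) ∪ B b₂) ∪ B b₃) ≤ #A + 3 * (2 * z + 1) := by
    have a1 := card_union_le ((A ∪ B b₁) ∪ B b₂) (B b₃)
    have a2 := card_union_le (A ∪ B b₁) (B b₂)
    have a3 := card_union_le A (B b₁)
    rw [hBc] at a1 a2 a3
    omega
  have h3 : #A ≤ #((Icc 1 (2 * X + 1)).filter (fun n => ∀ p ∈ (z + 1).primesBelow, ¬ Rr (X + 1) b₁ b₂ b₃ p (n % p))) := by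
    apply card_le_card_of_injOn (fun n : ℤ => (n + ((X : ℤ) + 1)).toNat)
    · intro n hn
      rw [mem_coe, hA, mem_filter, mem_Icc] at hn
      obtain ⟨⟨hn1, hn2⟩, hn3⟩ := hn
      rw [mem_coe, mem_filter, mem_Icc]
      beta_reduce
      have hnn : (((n + (X + 1)).toNat : ℕ) : ℤ) = n + (X + 1) := Int.toNat_of_nonneg (by omega)
      refine ⟨⟨by omega, by omega⟩, fun p hp => ?_⟩
      rw [Rr_mod]
      unfold Rr
      rw [hnn]
      have e : ∀ b : ℤ, n + (X + 1) - (X + 1) + b = b + n := fun b => by ring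
      rw [e, e, e]
      exact hn3 p hp
    · intro n hn n' hn' he
      rw [mem_coe, hA, mem_filter, mem_Icc] at hn hn'
      obtain ⟨⟨hn1, hn2⟩, _⟩ := hn
      obtain ⟨⟨hn1', hn2'⟩, _⟩ := hn'
      simp only at he
      omega
  omega

/-- the size of the product of the differences -/
lemma size_le (X : ℕ) (L η : ℝ) (b₁ b₂ b₃ : ℤ) (hX2 : (2 : ℝ) ≤ X) (hL : L = Real.log X) (hL0 : 0 < L) (hη : 0 < η)
    (hb12 : b₁ ≠ b₂) (hb13 : b₁ ≠ b₃) (hb23 : b₂ ≠ b₃)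
    (hb1 : (b₁.natAbs : ℝ) ≤ (X : ℝ) ^ 2) (hb2 : (b₂.natAbs : ℝ) ≤ (X : ℝ) ^ 2) (hb3 : (b₃.natAbs : ℝ) ≤ (X : ℝ) ^ 2) :
    4 / (η * L) * (Real.log ((b₂ - b₁) * (b₃ - b₁) * (b₃ - b₂)).natAbs / Real.log 2) ≤ 72 / η := by
  obtain ⟨D, hD⟩ : ∃ D : ℤ, D = (b₂ - b₁) * (b₃ - b₁) * (b₃ - b₂) := ⟨_, rfl⟩
  have d : ∀ b b' : ℤ, (b.natAbs : ℝ) ≤ (X : ℝ) ^ 2 → (b'.natAbs : ℝ) ≤ (X : ℝ) ^ 2 → ((b - b').natAbs : ℝ) ≤ (X : ℝ) ^ 3 := by
    intro b b' h h'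
    have c1 : ((b - b').natAbs : ℝ) ≤ b.natAbs + b'.natAbs := by exact_mod_cast Int.natAbs_sub_le b b'
    nlinarith [sq_nonneg (X : ℝ)]
  have c2 : (D.natAbs : ℝ) ≤ (X : ℝ) ^ 9 := by
    rw [hD, Int.natAbs_mul, Int.natAbs_mul]
    push_cast
    have k1 := d b₂ b₁ hb2 hb1
    have k2 := d b₃ b₁ hb3 hb1
    have k3 := d b₃ b₂ hb3 hb2
    rw [Nat.cast_natAbs, Nat.cast_natAbs, Nat.cast_natAbs] at *
    push_cast at *
    calc _ ≤ (X : ℝ) ^ 3 * (X : ℝ) ^ 3 * (X : ℝ) ^ 3 := by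
          apply mul_le_mul (mul_le_mul k1 k2 (by positivity) (by positivity)) k3 (by positivity) (by positivity)
      _ = _ := by ring
  have c3 : (0 : ℝ) < (D.natAbs : ℝ) := by
    rw [hD]
    exact_mod_cast Int.natAbs_pos.2 (mul_ne_zero (mul_ne_zero (sub_ne_zero.2 hb12.symm) (sub_ne_zero.2 hb13.symm)) (sub_ne_zero.2 hb23.symm))
  rw [← hD]
  have a4 : Real.log (D.natAbs : ℝ) ≤ 9 * L := by
    calc _ ≤ Real.log ((X : ℝ) ^ 9) := Real.log_le_log c3 c2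
      _ = 9 * L := by rw [Real.log_pow, hL]; norm_num
  have hl2 : (1 : ℝ) / 2 < Real.log 2 := by have := Real.log_two_gt_d9; linarith
  have c1 : Real.log (D.natAbs : ℝ) / Real.log 2 ≤ 18 * L := by
    rw [div_le_iff₀ (by linarith)]
    have := mul_pos hL0 (sub_pos.2 hl2)
    nlinarith
  calc _ ≤ 4 / (η * L) * (18 * L) := mul_le_mul_of_nonneg_left c1 (by positivity)
    _ = 72 / η := by
      have h1 : η ≠ 0 := hη.ne'
      have h2 : L ≠ 0 := hL0.ne'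
      rw [div_mul_eq_mul_div, div_eq_div_iff (mul_ne_zero h1 h2) h1]
      ring

theorem r2 : S_R2 := by
  classical
  intro η hη
  obtain ⟨C0, K0, hC0, hK0, hfl⟩ := Pool.Agent.TH892.SW.fl_set 3
  obtain ⟨E, hE⟩ : ∃ E, E = 4 * (C0 * C0) + 2 := ⟨_, rfl⟩
  obtain ⟨m, hm⟩ : ∃ m, m = 2 * E := ⟨_, rfl⟩
  obtain ⟨Y1, hY1⟩ := root m (2 * K0 + 3) (by omega)
  obtain ⟨n1, h1⟩ := ev_log 3 10
  obtain ⟨n2, h2⟩ := ev_L 1
  refine ⟨6 * (2 * m) ^ 3 * Real.exp (72 / η) + 1, Y1 + n1 + n2 + 2, by positivity, ?_⟩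
  intro X hX b₁ b₂ b₃ hb12 hb13 hb23 hb1 hb2 hb3
  obtain ⟨z, hz1, hz2, hzX, hlog⟩ := hY1 X (by omega)
  have e1 := h1 X (by omega)
  have e2 := h2 X (by omega)
  obtain ⟨L, hL⟩ : ∃ L, L = Real.log (X : ℝ) := ⟨_, rfl⟩
  rw [← hL] at hlog e1 e2 ⊢
  have hL0 : 0 < L := by linarith
  have hX0 : (0 : ℝ) < X := by exact_mod_cast (by omega : 0 < X)
  have hX1 : (1 : ℝ) ≤ X := by exact_mod_cast (by omega : 1 ≤ X)
  have hX2 : (2 : ℝ) ≤ X := by exact_mod_cast (by omega : 2 ≤ X)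
  have hm1 : (0 : ℝ) < m := by exact_mod_cast (by omega : 0 < m)
  have hz0 : (0 : ℝ) < z := by exact_mod_cast (by omega : 0 < z)
  have hlz : (0 : ℝ) < Real.log z := Real.log_pos (by exact_mod_cast (by omega : 1 < z))
  obtain ⟨y, hy⟩ : ∃ y, y = ⌊η * L⌋₊ := ⟨_, rfl⟩
  rw [← hy]
  obtain ⟨HH, hHH⟩ : ∃ HH, HH = hh y (b₂ - b₁) * hh y (b₃ - b₁) * hh y (b₃ - b₂) := ⟨_, rfl⟩
  rw [← hHH]
  have hHH1 : 1 ≤ HH := by
    rw [hHH]
    exact one_le_mul_of_one_le_of_one_le (one_le_mul_of_one_le_of_one_le (one_le_hh _ _) (one_le_hh _ _)) (one_le_hh _ _)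
  -- the count
  have hc := count_le X z b₁ b₂ b₃
  have hf := hfl C0 le_rfl z hz2 (2 * X + 1) (z + 1).primesBelow (Rr (X + 1) b₁ b₂ b₃) (fun p hp => by
    rw [Nat.mem_primesBelow] at hp
    exact ⟨hp.2, by omega, Rr_card _ _ _ _ p hp.2.pos⟩)
  obtain ⟨V, hV⟩ : ∃ V : ℝ, V = ∏ p ∈ (z + 1).primesBelow, (1 - (((range p).filter (fun a => Rr (X + 1) b₁ b₂ b₃ p a)).card : ℝ) / p) := ⟨_, rfl⟩
  rw [← hV] at hf
  have hfac : ∀ p : ℕ, 0 ≤ 1 - (((range p).filter (fun a => Rr (X + 1) b₁ b₂ b₃ p a)).card : ℝ) / p := by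
    intro p
    rw [sub_nonneg]
    apply div_le_one_of_le₀ _ (Nat.cast_nonneg _)
    exact_mod_cast (card_filter_le _ _).trans (card_range p).le
  have hV0 : 0 ≤ V := by
    rw [hV]
    exact prod_nonneg fun p _ => hfac p
  have hf2 := (abs_le.1 hf).2
  have h5 : (1 / 2 : ℝ) ^ C0 ≤ 1 := pow_le_one₀ (by norm_num) (by norm_num)
  have h6 : ((Pool.Agent.W41.JJ z : ℝ) + 2) * ((z : ℝ) ^ (2 * (C0 * C0)) * (K0 * (z : ℝ) ^ (2 * (C0 * C0)))) ≤ (z : ℝ) ^ E := by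
    have a1 : ((Pool.Agent.W41.JJ z : ℝ) + 2) ≤ 2 * z := by exact_mod_cast Pool.Agent.W41.JJ_small z (by omega)
    have a2 : (2 * K0 : ℝ) ≤ z := by exact_mod_cast (by omega : 2 * K0 ≤ z)
    calc ((Pool.Agent.W41.JJ z : ℝ) + 2) * ((z : ℝ) ^ (2 * (C0 * C0)) * (K0 * (z : ℝ) ^ (2 * (C0 * C0)))) ≤
        (2 * z) * ((z : ℝ) ^ (2 * (C0 * C0)) * (K0 * (z : ℝ) ^ (2 * (C0 * C0)))) := mul_le_mul_of_nonneg_right a1 (by positivity)
      _ = (2 * K0) * ((z : ℝ) ^ (4 * (C0 * C0)) * z) := by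
          have : (z : ℝ) ^ (4 * (C0 * C0)) = (z : ℝ) ^ (2 * (C0 * C0)) * (z : ℝ) ^ (2 * (C0 * C0)) := by
            rw [← pow_add]; congr 1; ring
          rw [this]; ring
      _ ≤ z * ((z : ℝ) ^ (4 * (C0 * C0)) * z) := mul_le_mul_of_nonneg_right a2 (by positivity)
      _ = _ := by rw [hE, pow_add]; ring
  have hXr : ((2 * X + 1 : ℕ) : ℝ) = 2 * X + 1 := by push_cast; ring
  rw [hXr] at hf2
  have hcr : (t3 X b₁ b₂ b₃ : ℝ) ≤ (#((Icc 1 (2 * X + 1)).filter (fun n => ∀ p ∈ (z + 1).primesBelow, ¬ Rr (X + 1) b₁ b₂ b₃ p (n % p))) : ℝ) + 3 * (2 * z + 1) := by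
    exact_mod_cast hc
  have h8 : (1 / 2 : ℝ) ^ C0 * ((2 * (X : ℝ) + 1) * V) ≤ (2 * X + 1) * V := by
    have : 0 ≤ (2 * (X : ℝ) + 1) * V := mul_nonneg (by positivity) hV0
    nlinarith
  -- the density
  have hVle : V ≤ (2 * m / L) ^ 3 * (HH * Real.exp (72 / η)) := by
    have a1 : V ≤ ∏ p ∈ (z + 1).primesBelow, ((1 - 1 / (p : ℝ)) ^ 3 * (if (p : ℤ) ∣ (b₂ - b₁) * (b₃ - b₁) * (b₃ - b₂) then ff p else 1)) := by
      rw [hV]
      apply prod_le_prod (fun p _ => hfac p)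
      intro p hp
      rw [Nat.mem_primesBelow] at hp
      apply local_dens p hp.2 (X + 1) b₁ b₂ b₃
      exact congrArg card (filter_congr (fun a _ => Iff.rfl))
    rw [prod_mul_distrib, prod_pow, ← prod_filter] at a1
    have hmin : 0 ≤ ∏ p ∈ (z + 1).primesBelow, (1 - 1 / (p : ℝ)) := by
      apply prod_nonneg
      intro p hp
      have := (half_le p (Nat.mem_primesBelow.1 hp).2.two_le).1
      linarith
    have a2 : ∏ p ∈ (z + 1).primesBelow, (1 - 1 / (p : ℝ)) ≤ 2 * m / L := by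
      refine (Vz_le z hz2).trans ?_
      rw [div_le_div_iff₀ hlz hL0]
      linarith
    have a3 := div_le z y (b₂ - b₁) (b₃ - b₁) (b₃ - b₂) (sub_ne_zero.2 hb12.symm) (sub_ne_zero.2 hb13.symm) (sub_ne_zero.2 hb23.symm)
      (η * L) (by positivity) (fun p hp => by
        rw [hy] at hp
        exact (Nat.lt_of_floor_lt hp).le)
    rw [← hHH] at a3
    have a5 := size_le X L η b₁ b₂ b₃ hX2 hL hL0 hη hb12 hb13 hb23 hb1 hb2 hb3
    have a6 := a3.trans (mul_le_mul_of_nonneg_left (Real.exp_le_exp.2 a5) (by linarith))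
    refine a1.trans ?_
    apply mul_le_mul (pow_le_pow_left₀ hmin a2 3) a6 _ (by positivity)
    apply prod_nonneg
    intro p hp
    exact zero_le_one.trans (one_le_ff p (Nat.mem_primesBelow.1 (mem_filter.1 hp).1).2.two_le)
  -- the error terms
  have hzE : (z : ℝ) ^ E ≤ √X := by
    apply Real.le_sqrt_of_sq_le
    rw [← pow_mul]
    have : z ^ (E * 2) ≤ X := by
      have : E * 2 = m := by omega
      rw [this]; exact hzX
    exact_mod_cast this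
  have hzz : (z : ℝ) ≤ (z : ℝ) ^ E := by
    have : z ≤ z ^ E := Nat.le_self_pow (by omega) _
    exact_mod_cast this
  have hzz1 : (1 : ℝ) ≤ z := by exact_mod_cast (by omega : 1 ≤ z)
  have herr : (z : ℝ) ^ E + 3 * (2 * z + 1) ≤ X / L ^ 3 := by
    rw [le_div_iff₀ (by positivity)]
    have c1 : (z : ℝ) ^ E + 3 * (2 * z + 1) ≤ 10 * √X := by linarith
    calc ((z : ℝ) ^ E + 3 * (2 * z + 1)) * L ^ 3 ≤ (10 * √X) * L ^ 3 := mul_le_mul_of_nonneg_right c1 (by positivity)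
      _ = √X * (10 * L ^ 3) := by ring
      _ ≤ √X * √X := mul_le_mul_of_nonneg_left e1 (Real.sqrt_nonneg _)
      _ = X := Real.mul_self_sqrt hX0.le
  have hmain : 2 * ((2 * (X : ℝ) + 1) * V) ≤ 6 * (2 * m) ^ 3 * Real.exp (72 / η) * (X / L ^ 3) * HH := by
    calc 2 * ((2 * (X : ℝ) + 1) * V) ≤ 2 * ((3 * X) * V) := by
          have : (2 * (X : ℝ) + 1) * V ≤ (3 * X) * V := mul_le_mul_of_nonneg_right (by linarith) hV0
          linarith
      _ ≤ 2 * ((3 * X) * ((2 * m / L) ^ 3 * (HH * Real.exp (72 / η)))) := by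
          have : (3 * (X : ℝ)) * V ≤ (3 * X) * ((2 * m / L) ^ 3 * (HH * Real.exp (72 / η))) := mul_le_mul_of_nonneg_left hVle (by positivity)
          linarith
      _ = _ := by rw [div_pow]; ring
  have herr2 : X / L ^ 3 ≤ X / L ^ 3 * HH := le_mul_of_one_le_right (by positivity) hHH1
  calc (t3 X b₁ b₂ b₃ : ℝ) ≤ 2 * ((2 * (X : ℝ) + 1) * V) + ((z : ℝ) ^ E + 3 * (2 * z + 1)) := by linarith
    _ ≤ 6 * (2 * m) ^ 3 * Real.exp (72 / η) * (X / L ^ 3) * HH + X / L ^ 3 * HH := by linarith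
    _ = _ := by ring

end Run7.h920.R
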